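import Pool.Agent.R815.Frac.Hedgehog

/-!
# A metric fractal that is not equi-Hoelder equivalent to any fractal in `ℓ₂`
-/

set_option autoImplicit false

namespace Pool.Agent.Results.MP_601622_gt.NotHilbert

open Pool.Agent.R815.Frac

/-- the Hilbert space `ℓ₂` of square-summable real sequences -/
abbrev L2 : Type := lp (fun _ : ℕ => ℝ) 2

/-- `(K, F)` is a metric fractal: `K` is compact (and nonempty), `F` is a finite family of
contracting self-maps of `K` whose images cover `K`. -/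
structure IsMetricFractal (K : Type) [MetricSpace K] (F : Set (K → K)) : Prop where
  nonempty : Nonempty K
  compact : CompactSpace K
  finite : F.Finite
  contracting : ∀ f ∈ F, ∃ q, ContractingWith q f
  cover : ⋃ f ∈ F, Set.range f = Set.univ

/-- `(K, F)` is a fractal in `X`: `K` is the (nonempty compact) attractor of a finite family `G` of
contracting self-maps of `X`, and `F` consists of the restrictions of the members of `G`. -/
def IsFractalIn (X : Type) [MetricSpace X] (K : Set X) (F : Set (K → K)) : Prop :=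
  K.Nonempty ∧ IsCompact K ∧ ∃ G : Set (X → X), G.Finite ∧ (∀ g ∈ G, ∃ q, ContractingWith q g) ∧
    K = ⋃ g ∈ G, g '' K ∧ F = {f : K → K | ∃ g ∈ G, ∀ x : K, (f x : X) = g x}

/-- `(K, F)` and `(K', F')` are equi-Hoelder equivalent. -/
def EquiHolderEquivalent {K K' : Type} [MetricSpace K] [MetricSpace K'] (F : Set (K → K))
    (F' : Set (K' → K')) : Prop :=
  ∃ h : K ≃ₜ K', (∃ c C α : ℝ, 0 < c ∧ 0 < C ∧ 0 < α ∧ ∀ x y : K,
      c * dist x y ^ α ≤ dist (h x) (h y) ∧ dist (h x) (h y) ≤ C * dist x y ^ α) ∧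
    F' = {f' : K' → K' | ∃ f ∈ F, f' = h ∘ f ∘ h.symm}

/-- the point set of the fractal, for a map `Q` of the line -/
def Pt (Q : ℝ → Linf) : Set (ℝ × Linf) :=
  (fun t => (t, 0)) '' Set.Icc 0 1 ∪ (fun t => (0, Q t)) '' Set.Icc 0 1

theorem Pt_fst {Q : ℝ → Linf} {p : ℝ × Linf} (hp : p ∈ Pt Q) : p.1 ∈ Set.Icc (0 : ℝ) 1 := by
  rcases hp with ⟨t, ht, rfl⟩ | ⟨t, ht, rfl⟩
  · exact ht
  · exact ⟨le_rfl, zero_le_one⟩

/-- the left half map -/
noncomputable def gl (Q : ℝ → Linf) (p : Pt Q) : Pt Q :=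
  ⟨(p.1.1 / 2, 0), Or.inl ⟨p.1.1 / 2, by
    obtain ⟨h1, h2⟩ := Pt_fst p.2
    exact ⟨by linarith, by linarith⟩, rfl⟩⟩

/-- the right half map -/
noncomputable def gr (Q : ℝ → Linf) (p : Pt Q) : Pt Q :=
  ⟨((p.1.1 + 1) / 2, 0), Or.inl ⟨(p.1.1 + 1) / 2, by
    obtain ⟨h1, h2⟩ := Pt_fst p.2
    exact ⟨by linarith, by linarith⟩, rfl⟩⟩

/-- the map to the second part -/
noncomputable def gq (Q : ℝ → Linf) (p : Pt Q) : Pt Q :=
  ⟨(0, Q p.1.1), Or.inr ⟨p.1.1, Pt_fst p.2, rfl⟩⟩

theorem isMetricFractal {Q : ℝ → Linf} (hQ : ∀ t t', dist (Q t) (Q t') ≤ 1 / 2 * dist t t') :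
    IsMetricFractal (Pt Q) {gl Q, gr Q, gq Q} := by
  have hhalf : (1 / 2 : NNReal) < 1 := by
    rw [← NNReal.coe_lt_coe]
    norm_num
  have hfst : ∀ p q : Pt Q, dist p.1.1 q.1.1 ≤ dist p q := fun p q => le_max_left _ _
  have hQc : Continuous Q := by
    have : LipschitzWith (1 / 2) Q := LipschitzWith.of_dist_le_mul (by
      intro t t'
      simpa using hQ t t')
    exact this.continuous
  refine ⟨⟨⟨(0, 0), Or.inl ⟨0, ⟨le_rfl, zero_le_one⟩, rfl⟩⟩⟩, ?_, by simp, ?_, ?_⟩
  · rw [← isCompact_iff_compactSpace]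
    exact (isCompact_Icc.image (by fun_prop)).union (isCompact_Icc.image (by fun_prop))
  · rintro f (rfl | rfl | rfl)
    · refine ⟨1 / 2, hhalf, LipschitzWith.of_dist_le_mul fun p q => ?_⟩
      have h1 : dist (gl Q p) (gl Q q) = dist ((p.1.1 / 2, 0) : ℝ × Linf) (q.1.1 / 2, 0) := rfl
      have h2 := hfst p q
      rw [h1, Prod.dist_eq, dist_self, Real.dist_eq]
      rw [Real.dist_eq] at h2
      simp only [← sub_div, abs_div, Nat.abs_ofNat]
      have h3 := abs_nonneg (p.1.1 - q.1.1)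
      rw [max_eq_left (by linarith)]
      push_cast
      linarith
    · refine ⟨1 / 2, hhalf, LipschitzWith.of_dist_le_mul fun p q => ?_⟩
      have h1 : dist (gr Q p) (gr Q q)
        = dist (((p.1.1 + 1) / 2, 0) : ℝ × Linf) ((q.1.1 + 1) / 2, 0) := rfl
      have h2 := hfst p q
      rw [h1, Prod.dist_eq, dist_self, Real.dist_eq]
      rw [Real.dist_eq] at h2
      simp only [← sub_div, add_sub_add_right_eq_sub, abs_div, Nat.abs_ofNat]
      have h3 := abs_nonneg (p.1.1 - q.1.1)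
      rw [max_eq_left (by linarith)]
      push_cast
      linarith
    · refine ⟨1 / 2, hhalf, LipschitzWith.of_dist_le_mul fun p q => ?_⟩
      have h1 : dist (gq Q p) (gq Q q) = dist ((0, Q p.1.1) : ℝ × Linf) (0, Q q.1.1) := rfl
      have h2 := hfst p q
      rw [h1, Prod.dist_eq, dist_self, max_eq_right dist_nonneg]
      refine (hQ _ _).trans ?_
      push_cast
      linarith
  · rw [Set.eq_univ_iff_forall]
    rintro ⟨p, hp⟩
    simp only [Set.mem_insert_iff, Set.mem_singleton_iff, Set.iUnion_iUnion_eq_or_left,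
      Set.iUnion_iUnion_eq_left, Set.mem_union, Set.mem_range]
    rcases hp with ⟨t, ht, rfl⟩ | ⟨t, ht, rfl⟩
    · by_cases h : t ≤ 1 / 2
      · left
        refine ⟨⟨(2 * t, 0), Or.inl ⟨2 * t, ⟨by linarith [ht.1], by linarith⟩, rfl⟩⟩, ?_⟩
        apply Subtype.ext
        show ((2 * t / 2, 0) : ℝ × Linf) = (t, 0)
        rw [mul_div_cancel_left₀ _ two_ne_zero]
      · right; left
        push Not at h
        refine ⟨⟨(2 * t - 1, 0), Or.inl ⟨2 * t - 1, ⟨by linarith, by linarith [ht.2]⟩, rfl⟩⟩, ?_⟩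
        apply Subtype.ext
        show (((2 * t - 1 + 1) / 2, 0) : ℝ × Linf) = (t, 0)
        rw [sub_add_cancel, mul_div_cancel_left₀ _ two_ne_zero]
    · right; right
      exact ⟨⟨(t, 0), Or.inl ⟨t, ht, rfl⟩⟩, rfl⟩

/-- There is a metric fractal that is not equi-Hoelder equivalent to any fractal in `ℓ₂`; its
underlying space has no equi-Hoelder embedding into any real inner product space. -/
theorem result : ∃ (K : Type) (_ : MetricSpace K) (F : Set (K → K)), IsMetricFractal K F ∧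
    (¬ ∃ (K' : Set L2) (F' : Set (K' → K')), IsFractalIn L2 K' F' ∧ EquiHolderEquivalent F F') ∧
    ∀ (H : Type) [NormedAddCommGroup H] [InnerProductSpace ℝ H] (h : K → H) (c C α : ℝ),
      0 < c → 0 < C → 0 < α →
      ¬ ∀ x y : K, c * dist x y ^ α ≤ dist (h x) (h y) ∧ dist (h x) (h y) ≤ C * dist x y ^ α := by
  obtain ⟨Q, hQ, hQX⟩ := exists_contraction (fun k => Cube k (2 * 4 ^ k))
  have main : ∀ (H : Type) [NormedAddCommGroup H] [InnerProductSpace ℝ H] (h : Pt Q → H)
      (c C α : ℝ), 0 < c → 0 < C → 0 < α →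
      ¬ ∀ x y : Pt Q, c * dist x y ^ α ≤ dist (h x) (h y) ∧ dist (h x) (h y) ≤ C * dist x y ^ α := by
    intro H _ _ h c C α hc hC hα hh
    have key : ∀ k : ℕ, c ^ 2 * ((((2 : ℝ) ^ k) ^ α) ^ 2) ≤ 2 * C ^ 2 := by
      intro k
      obtain ⟨δ, hδ, ι, hι, hd⟩ := hQX k
      let g : Cube k (2 * 4 ^ k) → Pt Q := fun x => ⟨(0, Q (ι x)), Or.inr ⟨ι x, hι x, rfl⟩⟩
      have hg : ∀ x y, dist (g x) (g y) = δ * dist x y := by
        intro x y
        have h1 : dist (g x) (g y) = dist ((0, Q (ι x)) : ℝ × Linf) (0, Q (ι y)) := rfl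
        rw [h1, Prod.dist_eq, dist_self, max_eq_right dist_nonneg]
        exact hd x y
      have hδα : 0 < δ ^ α := Real.rpow_pos_of_pos hδ α
      have h3 := no_embed (k := k) (m := 2 * 4 ^ k) le_rfl (fun x => h (g x)) (c := c * δ ^ α)
        (C := C * δ ^ α) (α := α) (by positivity) (by positivity) hα
        (by
          intro x y
          have := (hh (g x) (g y)).1
          rw [hg, Real.mul_rpow hδ.le dist_nonneg, ← mul_assoc] at this
          rwa [← dist_eq_norm])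
        (by
          intro x y
          have := (hh (g x) (g y)).2
          rw [hg, Real.mul_rpow hδ.le dist_nonneg, ← mul_assoc] at this
          rwa [← dist_eq_norm])
      have h4 : (δ ^ α) ^ 2 * (c ^ 2 * ((((2 : ℝ) ^ k) ^ α) ^ 2)) ≤ (δ ^ α) ^ 2 * (2 * C ^ 2) := by
        nlinarith
      exact le_of_mul_le_mul_left h4 (by positivity)
    have h2 : 1 < (2 : ℝ) ^ (2 * α) := Real.one_lt_rpow (by norm_num) (by linarith)
    obtain ⟨k, hk⟩ := pow_unbounded_of_one_lt (2 * C ^ 2 / c ^ 2) h2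
    have h5 : (((2 : ℝ) ^ k) ^ α) ^ 2 = ((2 : ℝ) ^ (2 * α)) ^ k := by
      rw [← Real.rpow_natCast 2 k, ← Real.rpow_mul (by norm_num), ← Real.rpow_natCast _ 2,
        ← Real.rpow_mul (by norm_num), ← Real.rpow_natCast _ k, ← Real.rpow_mul (by norm_num)]
      congr 1
      push_cast
      ring
    have h6 := key k
    rw [h5] at h6
    rw [div_lt_iff₀ (by positivity)] at hk
    linarith
  refine ⟨Pt Q, inferInstance, {gl Q, gr Q, gq Q}, isMetricFractal hQ, ?_, main⟩
  rintro ⟨K', F', -, h, ⟨c, C, α, hc, hC, hα, hh⟩, -⟩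
  exact main L2 (fun x => (h x : L2)) c C α hc hC hα hh

end Pool.Agent.Results.MP_601622_gt.NotHilbert
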